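import Mathlib

open Filter Topology

namespace Pool.Agent.Results.MP_a87fbc_pr.Conv

/-- Cookie assignments on the binary tree of depth `n`: for each of the two children, the cookie
on the edge to it and an assignment on the subtree below it. -/
def Cfg : ℕ → Type
  | 0 => Unit
  | n + 1 => (Bool × Cfg n) × (Bool × Cfg n)

/-- Expectation when all cookies are independent and uniform. -/
noncomputable def Ex : (n : ℕ) → (Cfg n → ℝ) → ℝ
  | 0, f => f ()
  | n + 1, f => (∑ x : Bool, ∑ y : Bool, Ex n fun c => Ex n fun c' => f ((x, c), (y, c'))) / 4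

/-- The cookie value. -/
def ck (x : Bool) : ℤ := if x then 1 else -1

/-- Game value; the flag is `true` when the maximiser moves at the root. -/
def val : Bool → (n : ℕ) → Cfg n → ℤ
  | _, 0, _ => 0
  | true, n + 1, p => max (ck p.1.1 + val false n p.1.2) (ck p.2.1 + val false n p.2.2)
  | false, n + 1, p => min (ck p.1.1 + val true n p.1.2) (ck p.2.1 + val true n p.2.2)

/-- The distribution function of `V_n`. -/
noncomputable def F (n : ℕ) (i : ℤ) : ℝ :=
  Ex (2 * n) fun c => if val true (2 * n) c ≤ i then 1 else 0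

theorem Ex_aff (n : ℕ) (a k : ℝ) (f : Cfg n → ℝ) :
    Ex n (fun c => a + k * f c) = a + k * Ex n f := by
  induction n with
  | zero => rfl
  | succ n ih => simp only [Ex, ih, Fintype.sum_bool]; ring

theorem Ex_sq (n : ℕ) (g : Bool × Cfg n → ℝ) : Ex (n + 1) (fun p => g p.1 * g p.2) =
    ((Ex n (fun c => g (true, c)) + Ex n fun c => g (false, c)) / 2) ^ 2 := by
  have a : ∀ (k : ℝ) (f : Cfg n → ℝ), Ex n (fun c => k * f c) = k * Ex n f := fun k f => by
    simpa using Ex_aff n 0 k f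
  have b : ∀ (k : ℝ) (f : Cfg n → ℝ), Ex n (fun c => f c * k) = Ex n f * k := fun k f => by
    simpa only [mul_comm] using a k f
  simp only [Ex, a, b, Fintype.sum_bool]
  ring

/-- One step on square roots. -/
noncomputable def T (w : ℤ → ℝ) (j : ℤ) : ℝ := 1 - (w (j - 1) ^ 2 + w (j + 1) ^ 2) / 2

theorem L1 {m : ℕ} {w : ℤ → ℝ}
    (h : ∀ i, Ex m (fun c => if val true m c ≤ i then 1 else 0) = w i ^ 2) (j : ℤ) :
    Ex (m + 1) (fun c => if j < val false (m + 1) c then 1 else 0) = T w j ^ 2 := by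
  let g : Bool × Cfg m → ℝ := fun q => 1 + -1 * if val true m q.2 ≤ j - ck q.1 then 1 else 0
  have e : (fun c : Cfg (m + 1) => if j < val false (m + 1) c then (1 : ℝ) else 0) =
      fun p => g p.1 * g p.2 := funext fun p => by
    simp only [val, g, lt_min_iff]
    split_ifs <;> first | omega | norm_num
  rw [e, Ex_sq]
  simp only [g, Ex_aff, h, ck, T, if_true, Bool.false_eq_true, if_false, sub_neg_eq_add]
  ring

theorem L2 {m : ℕ} {w : ℤ → ℝ}
    (h : ∀ j, Ex m (fun c => if j < val false m c then 1 else 0) = w j ^ 2) (i : ℤ) :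
    Ex (m + 1) (fun c => if val true (m + 1) c ≤ i then 1 else 0) = T w i ^ 2 := by
  let g : Bool × Cfg m → ℝ := fun q => 1 + -1 * if i - ck q.1 < val false m q.2 then 1 else 0
  have e : (fun c : Cfg (m + 1) => if val true (m + 1) c ≤ i then (1 : ℝ) else 0) =
      fun p => g p.1 * g p.2 := funext fun p => by
    simp only [val, g, max_le_iff]
    split_ifs <;> first | omega | norm_num
  rw [e, Ex_sq]
  simp only [g, Ex_aff, h, ck, T, if_true, Bool.false_eq_true, if_false, sub_neg_eq_add]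
  ring

/-- Square roots of the distribution functions. -/
noncomputable def s : ℕ → ℤ → ℝ
  | 0 => fun i => if 0 ≤ i then 1 else 0
  | n + 1 => T (T (s n))

theorem F_eq (n : ℕ) : ∀ i, F n i = s n i ^ 2 := by
  induction n with
  | zero => intro i; simp [F, s, Ex, val]
  | succ n ih => exact L2 (L1 ih)

theorem T_mem {w : ℤ → ℝ} (h : ∀ i, 0 ≤ w i ∧ w i ≤ 1) (j : ℤ) : 0 ≤ T w j ∧ T w j ≤ 1 := by
  unfold T
  constructor <;> nlinarith [h (j - 1), h (j + 1)]

theorem T_le {w : ℤ → ℝ} (h : ∀ i, 0 ≤ w i ∧ w i ≤ 1) {i j : ℤ} (h1 : w (j - 1) ≤ w (i - 1))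
    (h2 : w (j + 1) ≤ w (i + 1)) : T w i ≤ T w j := by
  unfold T
  nlinarith [pow_le_pow_left₀ (h _).1 h1 2, pow_le_pow_left₀ (h _).1 h2 2]

theorem T_lim {w : ℤ → ℝ} {l : Filter ℤ} {c : ℝ} (h : Tendsto w l (𝓝 c))
    (h1 : ∀ k, Tendsto (fun i => i + k) l l) : Tendsto (T w) l (𝓝 (1 - c ^ 2)) := by
  have := (tendsto_const_nhds (x := (1 : ℝ))).sub
    ((((h.comp (h1 (-1))).pow 2).add ((h.comp (h1 1)).pow 2)).div_const 2)
  rw [add_self_div_two] at this
  exact this

/-- The defect. -/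
noncomputable def e (w : ℤ → ℝ) (i : ℤ) : ℝ := 1 - w i - T w (i + 1)

/-- The invariant. -/
structure Inv (w : ℤ → ℝ) : Prop where
  mem : ∀ i, 0 ≤ w i ∧ w i ≤ 1
  mono : Monotone w
  nn : ∀ i, 0 ≤ e w i
  su : Summable (e w)
  top : Tendsto w atTop (𝓝 1)
  bot : Tendsto w atBot (𝓝 0)

theorem step {w : ℤ → ℝ} (h : Inv w) : Inv (T (T w)) ∧
    ∑' i, e (T (T w)) i ≤ 19 / 20 * ∑' i, e w i ∧ ∀ i, |w i - T (T w) i| ≤ 2 * ∑' i, e w i := by
  have hb := T_mem h.mem
  have hs := T_mem hb
  have an : Antitone (T w) := fun i j hij =>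
    T_le h.mem (h.mono (by omega)) (h.mono (by omega))
  let α : ℤ → ℝ := fun i => (1 + w i - T w (i + 1)) / 2
  let β : ℤ → ℝ := fun i => (1 + T w (i + 1) - T (T w) i) / 2
  have a0 : ∀ i, 0 ≤ α i ∧ α i ≤ 1 - T w (i + 1) := fun i => by
    have := h.nn i
    simp only [α, e] at *
    constructor <;> linarith [h.mem i, hb (i + 1)]
  have b0 : ∀ i, 0 ≤ β i := fun i => by simp only [β]; linarith [hs i, hb (i + 1)]
  have i1 : ∀ i, 1 - T (T w) i - T w (i + 1) = α i * e w i + α (i - 2) * e w (i - 2) := fun i => by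
    have : T w (i - 1) = 1 - (w (i - 2) ^ 2 + w i ^ 2) / 2 := by
      rw [T, sub_add_cancel, sub_sub]; norm_num
    simp only [α, e, show i - 2 + 1 = i - 1 by ring]
    rw [T]
    linear_combination this
  have i2 : ∀ i, e (T (T w)) i = β i * (1 - T (T w) i - T w (i + 1)) +
      β (i + 2) * (1 - T (T w) (i + 2) - T w (i + 2 + 1)) := fun i => by
    have : T (T w) (i + 2) = 1 - (T w (i + 1) ^ 2 + T w (i + 2 + 1) ^ 2) / 2 := by
      rw [T, show i + 2 - 1 = i + 1 by ring]
    have t2 : T (T (T w)) (i + 1) = 1 - (T (T w) i ^ 2 + T (T w) (i + 2) ^ 2) / 2 := by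
      rw [T, add_sub_cancel_right, show i + 1 + 1 = i + 2 by ring]
    simp only [β, e]
    linear_combination this - t2
  let u : ℤ → ℝ := fun i => β i * α i * e w i
  let v : ℤ → ℝ := fun i => β (i + 2) * α i * e w i
  have u0 : ∀ i, 0 ≤ u i := fun i => mul_nonneg (mul_nonneg (b0 _) (a0 i).1) (h.nn i)
  have v0 : ∀ i, 0 ≤ v i := fun i => mul_nonneg (mul_nonneg (b0 _) (a0 i).1) (h.nn i)
  have uv : ∀ i, u i + v i ≤ 19 / 40 * e w i := fun i => by
    have k1 : β i + β (i + 2) ≤ (1 + 4 * T w (i + 1) + 3 * T w (i + 1) ^ 2) / 4 := by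
      have t1 := an (show i + 1 ≤ i + 2 + 1 by omega)
      have t2 := pow_le_pow_left₀ (hb _).1 t1 2
      have t3 := pow_le_one₀ (n := 2) (hb (i - 1)).1 (hb (i - 1)).2
      have t4 : T (T w) (i + 2) = 1 - (T w (i + 1) ^ 2 + T w (i + 2 + 1) ^ 2) / 2 := by
        rw [T, show i + 2 - 1 = i + 1 by ring]
      have t5 : T (T w) i = 1 - (T w (i - 1) ^ 2 + T w (i + 1) ^ 2) / 2 := rfl
      simp only [β]
      linarith
    have k2 := mul_le_mul k1 (a0 i).2 (a0 i).1 (by nlinarith [hb (i + 1)])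
    have k3 : (1 + 4 * T w (i + 1) + 3 * T w (i + 1) ^ 2) / 4 * (1 - T w (i + 1)) ≤ 19 / 40 := by
      nlinarith [hb (i + 1), mul_nonneg (hb (i + 1)).1 (sq_nonneg (T w (i + 1) - 1 / 2)),
        sq_nonneg (T w (i + 1) - 1 / 2)]
    simp only [u, v]
    rw [← add_mul, ← add_mul]
    exact mul_le_mul_of_nonneg_right (k2.trans k3) (h.nn i)
  have su : Summable u := .of_nonneg_of_le u0 (fun i => by linarith [uv i, v0 i])
    (h.su.mul_left (19 / 40))
  have sv : Summable v := .of_nonneg_of_le v0 (fun i => by linarith [uv i, u0 i])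
    (h.su.mul_left (19 / 40))
  have i3 : e (T (T w)) = fun i => u i + v (i - 2) + (u (i + 2) + v i) := funext fun i => by
    rw [i2, i1, i1]
    simp only [u, v, sub_add_cancel, add_sub_cancel_right]
    ring
  have hs3 : HasSum (e (T (T w))) (∑' i, u i + ∑' i, v i + (∑' i, u i + ∑' i, v i)) := by
    rw [i3]
    exact (su.hasSum.add ((Equiv.subRight 2).hasSum_iff.2 sv.hasSum)).add
      (((Equiv.addRight 2).hasSum_iff.2 su.hasSum).add sv.hasSum)
  have sh : ∀ k : ℤ, Tendsto (fun i => i + k) atTop atTop := fun k =>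
    tendsto_atTop_add_const_right _ k tendsto_id
  have sh' : ∀ k : ℤ, Tendsto (fun i => i + k) atBot atBot := fun k =>
    tendsto_atBot_add_const_right _ k tendsto_id
  refine ⟨⟨hs, fun i j hij => T_le hb (an (by omega)) (an (by omega)), fun i => ?_, hs3.summable,
    by simpa using T_lim (T_lim h.top sh) sh, by simpa using T_lim (T_lim h.bot sh') sh'⟩, ?_,
    fun i => ?_⟩
  · rw [i3]
    exact add_nonneg (add_nonneg (u0 _) (v0 _)) (add_nonneg (u0 _) (v0 _))
  · have := hasSum_le uv (su.hasSum.add sv.hasSum) (h.su.hasSum.mul_left _)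
    rw [hs3.tsum_eq]
    linarith
  · have l : ∀ j, e w j ≤ ∑' i, e w i := fun j => h.su.le_tsum j fun k _ => h.nn k
    have a1 : ∀ j, 0 ≤ α j * e w j ∧ α j * e w j ≤ e w j := fun j =>
      ⟨mul_nonneg (a0 j).1 (h.nn j),
        mul_le_of_le_one_left (h.nn j) (by linarith [(a0 j).2, hb (j + 1)])⟩
    have := i1 i
    have d : e w i = 1 - w i - T w (i + 1) := rfl
    rw [abs_le]
    constructor <;> linarith [l i, l (i - 2), a1 i, a1 (i - 2), h.nn i, h.nn (i - 2)]

theorem inv0 : Inv (s 0) := by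
  have z : ∀ i, e (s 0) i = if i = -2 ∨ i = -1 then 1 / 2 else 0 := fun i => by
    simp only [e, T, s]
    split_ifs <;> first | omega | norm_num
  refine ⟨fun i => ?_, fun i j hij => ?_, fun i => ?_, ?_, ?_, ?_⟩
  · simp only [s]; split_ifs <;> norm_num
  · simp only [s]; split_ifs <;> first | omega | norm_num
  · rw [z]; split_ifs <;> norm_num
  · exact summable_of_ne_finset_zero (s := {-2, -1}) fun i hi => by
      rw [z, if_neg (by simpa using hi)]
  · exact tendsto_const_nhds.congr' ((eventually_ge_atTop 0).mono fun i hi => by simp [s, hi])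
  · exact tendsto_const_nhds.congr' ((eventually_lt_atBot 0).mono fun i hi => by
      simp [s, not_le.2 hi])

theorem invn (n : ℕ) : Inv (s n) ∧ ∑' i, e (s n) i ≤ (∑' i, e (s 0) i) * (19 / 20) ^ n := by
  induction n with
  | zero => exact ⟨inv0, by simp⟩
  | succ n ih =>
    refine ⟨(step ih.1).1, (step ih.1).2.1.trans ?_⟩
    rw [pow_succ]
    linarith [ih.2]

theorem result : ∃ G : ℤ → ℝ, Monotone G ∧ Tendsto G atBot (𝓝 0) ∧ Tendsto G atTop (𝓝 1) ∧
    ∀ i, Tendsto (fun n => F n i) atTop (𝓝 (G i)) := by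
  have hd : ∀ i n, dist (s n i) (s (n + 1) i) ≤ 2 * (∑' i, e (s 0) i) * (19 / 20) ^ n :=
    fun i n => ((step (invn n).1).2.2 i).trans (by linarith [(invn n).2])
  have r : (19 / 20 : ℝ) < 1 := by norm_num
  choose L hL using fun i => cauchySeq_tendsto_of_complete
    (cauchySeq_of_le_geometric _ _ r (hd i))
  have U : TendstoUniformly s L atTop := by
    rw [Metric.tendstoUniformly_iff]
    intro ε hε
    have t := ((tendsto_pow_atTop_nhds_zero_of_lt_one (by norm_num) r).const_mul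
      (2 * ∑' i, e (s 0) i)).div_const (1 - 19 / 20)
    rw [mul_zero, zero_div] at t
    filter_upwards [t.eventually (gt_mem_nhds hε)] with n hn i
    rw [dist_comm]
    exact (dist_le_of_le_geometric_of_tendsto _ _ r (hd i) (hL i) n).trans_lt hn
  refine ⟨fun i => L i ^ 2, fun i j hij => ?_, ?_, ?_, fun i => ?_⟩
  · exact pow_le_pow_left₀ (ge_of_tendsto' (hL i) fun n => ((invn n).1.mem i).1)
      (le_of_tendsto_of_tendsto' (hL i) (hL j) fun n => (invn n).1.mono hij) 2
  · simpa using (U.tendsto_of_eventually_tendsto (Eventually.of_forall fun n => (invn n).1.bot)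
      tendsto_const_nhds).pow 2
  · simpa using (U.tendsto_of_eventually_tendsto (Eventually.of_forall fun n => (invn n).1.top)
      tendsto_const_nhds).pow 2
  · simp only [F_eq]
    exact (hL i).pow 2

end Pool.Agent.Results.MP_a87fbc_pr.Conv
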